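import Pool.Agent.Golomb15.Lower

/-!
For every `ε > 0` and all large `J`: the hypothesis `H(I, J) = I J` of Q1 forces
`I ≥ (1 - ε) J`, and the conclusion of Q1 holds for all `I ≥ (1 + ε) J`.
-/

namespace Pool.Agent.Results.MP_61bf50_co.AsymptoticRange

open Golomb15

theorem result : ∀ ε : ℝ, 0 < ε → ∃ J₀ : ℕ, ∀ J : ℕ, J₀ ≤ J → ∀ I : ℕ, 1 ≤ I →
    (H I J = I * J → (1 - ε) * (J : ℝ) ≤ I) ∧
    ((1 + ε) * (J : ℝ) ≤ I → ∀ A₁ : Finset ℤ,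
      A₁ ⊆ Finset.Icc 1 (((I + 1) * J : ℕ) : ℤ) → A₁.card = J →
      Splits I J (Finset.Icc 1 (((I + 1) * J : ℕ) : ℤ) \ A₁)) := by
  intro ε hε
  obtain ⟨J₁, hJ₁⟩ := necessary ε hε
  obtain ⟨J₂, hJ2, hJ₂⟩ := qp_large ε hε
  refine ⟨max J₁ J₂, ?_⟩
  intro J hJ I hI
  have h1 : J₁ ≤ J := (le_max_left _ _).trans hJ
  have h2 : J₂ ≤ J := (le_max_right _ _).trans hJ
  refine ⟨fun h => hJ₁ J h1 I hI h, ?_⟩
  intro hIJ A₁ hsub hcard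
  apply splits_of_QP (hJ2.trans h2) _ A₁ hcard hsub
  apply hJ₂ J h2
  push_cast
  have h3 : (1 + ε) * (J : ℝ) ≤ (I : ℝ) + 1 := hIJ.trans (by linarith)
  calc (1 + ε) * (J : ℝ) ^ 2 = ((1 + ε) * J) * J := by ring
    _ ≤ ((I : ℝ) + 1) * J := mul_le_mul_of_nonneg_right h3 (Nat.cast_nonneg _)

end Pool.Agent.Results.MP_61bf50_co.AsymptoticRange
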