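import Pool.Agent.Golomb15.Lower

/-!
The least integer `iota J` such that `H(I, J) = I J` for all `I ≥ iota J` is asymptotic to `J`.
-/

open Filter Topology

namespace Pool.Agent.Results.MP_61bf50_co.IotaAsymptotic

open Golomb15

theorem result : (∀ J : ℕ, 1 ≤ J → ∃ i : ℕ, ∀ I : ℕ, i ≤ I → H I J = I * J) ∧
    Tendsto (fun J : ℕ => (iota J : ℝ) / J) atTop (𝓝 1) := by
  refine ⟨?_, iota_tendsto⟩
  intro J hJ
  refine ⟨144 * J, ?_⟩
  intro I hI
  apply H_eq_of_dgr
  apply dgr_of_QP hJ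
  apply qp_explicit J _ hJ
  nlinarith

end Pool.Agent.Results.MP_61bf50_co.IotaAsymptotic
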