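import Pool.Agent.GRX.Main

/-!
# MP_61bf50_co : extending a Golomb ruler to a regular family, for all `I ≥ 24 (J + 1)`
-/

set_option autoImplicit false

namespace Pool.Agent.Results.MP_61bf50_co.LinearRange

/-- A Golomb ruler: a finite set of integers whose pairwise differences are all distinct. -/
def IsGolomb (A : Finset ℤ) : Prop :=
  ∀ a ∈ A, ∀ b ∈ A, ∀ c ∈ A, ∀ d ∈ A, a ≠ b → a - b = c - d → a = c ∧ b = d

/-- An `(I, J, n)`-DGR: `I` pairwise disjoint `J`-mark Golomb rulers contained in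
`{1, 2, …, n}`. -/
def IsDGR (I J n : ℕ) (F : Fin I → Finset ℤ) : Prop :=
  (∀ i, (F i).card = J ∧ IsGolomb (F i) ∧ F i ⊆ Finset.Icc 1 (n : ℤ)) ∧
    ∀ i j, i ≠ j → Disjoint (F i) (F j)

/-- For all positive integers `I, J` with `I ≥ 24 (J + 1)` and every `J`-element subset `A` of
`{1, …, (I+1) J}` the complement of `A` can be partitioned into `I` Golomb rulers
`F 0, …, F (I-1)` with `J` marks each; if `A` is a Golomb ruler, then `A, F 0, …, F (I-1)` is a
regular `(I+1, J, (I+1) J)`-DGR containing `A`. -/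
theorem result (I J : ℕ) (hJ : 0 < J) (hI : 24 * (J + 1) ≤ I) (A : Finset ℤ) (hA : A.card = J)
    (hs : A ⊆ Finset.Icc 1 (((I + 1) * J : ℕ) : ℤ)) :
    ∃ F : Fin I → Finset ℤ, IsDGR I J ((I + 1) * J) F ∧
      Finset.univ.biUnion F = Finset.Icc 1 (((I + 1) * J : ℕ) : ℤ) \ A ∧
      (IsGolomb A → IsDGR (I + 1) J ((I + 1) * J) (Fin.cons A F)) := by
  have e : (((I + 1) * J : ℕ) : ℤ) = ((I : ℤ) + 1) * J := by push_cast; ring
  have hs' := hs
  rw [e] at hs'
  obtain ⟨F, h1, h2⟩ := GRX.main I J hJ hI A hA hs'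
  rw [← e] at h1
  have hsub : ∀ i, F i ⊆ Finset.Icc 1 (((I + 1) * J : ℕ) : ℤ) := fun i =>
    (h1 i).2.2.trans Finset.sdiff_subset
  have hD : IsDGR I J ((I + 1) * J) F := ⟨fun i => ⟨(h1 i).1, (h1 i).2.1, hsub i⟩, h2⟩
  refine ⟨F, hD, ?_, ?_⟩
  · apply Finset.eq_of_subset_of_card_le
    · intro x hx
      rw [Finset.mem_biUnion] at hx
      obtain ⟨i, _, hi⟩ := hx
      exact (h1 i).2.2 hi
    · rw [Finset.card_biUnion fun i _ j _ hij => h2 i j hij, Finset.card_sdiff_of_subset hs,
        Finset.sum_congr rfl fun i _ => (h1 i).1, Int.card_Icc, hA]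
      simp only [Finset.sum_const, Finset.card_univ, Fintype.card_fin, smul_eq_mul]
      have : ((((I + 1) * J : ℕ) : ℤ) + 1 - 1).toNat = (I + 1) * J := by
        rw [add_sub_cancel_right]
        exact Int.toNat_natCast _
      rw [this]
      apply le_of_eq
      rw [Nat.add_mul, Nat.one_mul, Nat.add_sub_cancel]
  · intro hG
    refine ⟨?_, ?_⟩
    · intro i
      refine Fin.cases ?_ (fun i => ?_) i
      · simpa using ⟨hA, hG, hs⟩
      · rw [Fin.cons_succ]
        exact hD.1 i
    · have hd : ∀ i, Disjoint A (F i) := fun i =>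
        (Finset.disjoint_of_subset_left (h1 i).2.2 Finset.sdiff_disjoint).symm
      intro i j
      refine Fin.cases ?_ (fun i => ?_) i
      · refine Fin.cases ?_ (fun j => ?_) j
        · intro h
          exact absurd rfl h
        · intro _
          rw [Fin.cons_zero, Fin.cons_succ]
          exact hd j
      · refine Fin.cases ?_ (fun j => ?_) j
        · intro _
          rw [Fin.cons_zero, Fin.cons_succ]
          exact (hd i).symm
        · intro h
          rw [Fin.cons_succ, Fin.cons_succ]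
          exact h2 i j fun e => h (by rw [e])

end Pool.Agent.Results.MP_61bf50_co.LinearRange
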